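import Pool.Agent.Run7.h640.GP2.MLoc

/-!
# Golden partitions: transfer of two comparisons from `(r', n')` to `(r, n)`
-/

set_option autoImplicit false

open Finset
open scoped Classical

namespace Run7.h640.GP2

open Run7.h640.FP

theorem key {D R q n n' : ℕ} {r r' : ℕ → ℕ → Prop} {δ : ℕ → ℕ} (hD : 1 ≤ D) (hr : Band D r)
    (hr' : Band D r') (hL : MLoc R r' n' r n δ) (hR : 4 * ((q + 1) * D) + 3 * D ≤ R) {a b : ℕ}
    (hab : a < b) (hba : b < a + D) (hbn : b < n') :
    ∃ d : ℕ, b + d < n ∧ (r' a b ↔ r (a + d) (b + d)) ∧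
      |pr r' a b (range n') - pr r (a + d) (b + d) (range n)| ≤ 4 * rho D ^ q ∧
      ∀ x y, x < y → y < x + D → y < n' → ∃ e : ℕ, y + e < n ∧
        |pr r' x y (range n') - pr r (x + e) (y + e) (range n)| ≤ 4 * rho D ^ q ∧
        |pr r' y x (range n') - pr r (y + e) (x + e) (range n)| ≤ 4 * rho D ^ q ∧
        |pr (add r' a b) x y (range n') - pr (add r (a + d) (b + d)) (x + e) (y + e) (range n)| ≤
          4 * rho D ^ q ∧
        |pr (add r' a b) y x (range n') - pr (add r (a + d) (b + d)) (y + e) (x + e) (range n)| ≤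
          4 * rho D ^ q := by
  obtain ⟨m, hm⟩ : ∃ m, m = (q + 1) * D := ⟨_, rfl⟩
  rw [← hm] at hR
  have hlen := hL.len'
  obtain ⟨t, hT1, hT2, hT3, hT4, hT5⟩ : ∃ t : ℕ, t ≤ a ∧ b < t + R ∧ t + R ≤ n' ∧
      (t = 0 ∨ t + (2 * m + 2 * D) ≤ a) ∧ (t + R = n' ∨ a ≤ t + (2 * m + 2 * D)) := by
    by_cases h1 : a < 2 * m + 2 * D
    · exact ⟨0, by omega, by omega, by omega, Or.inl rfl, Or.inr (by omega)⟩
    · by_cases h2 : a - (2 * m + 2 * D) + R ≤ n'
      · exact ⟨a - (2 * m + 2 * D), by omega, by omega, by omega, Or.inr (by omega),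
          Or.inr (by omega)⟩
      · exact ⟨n' - R, by omega, by omega, by omega, Or.inr (by omega), Or.inl (by omega)⟩
  have hpl := fun {x y : ℕ} (h1 : x < y) (h2 : y < x + D) (h3 : y < n') =>
    place (m := m) hr hr' hL hR hab hT1 hT2 hT3 hT4 hT5 h1 h2 h3
  have hle := hL.le_top hT3
  have hband := band_add hr (a := a + δ t) (b := b + δ t) (by omega)
  have hband' := band_add hr' (a := a) (b := b) hab
  refine ⟨δ t, by omega, hL.win t hT3 a b hT1 (by omega) (by omega) hT2, ?_, ?_⟩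
  · have htop := hL.top
    by_cases hn1 : t + R = n' ∨ b + m < t + R
    · by_cases hn2 : t = 0 ∨ t + m ≤ a
      · refine cmp2 (α := t) (β := t + R) hD hr hr' hT3 (by omega) hT1 (by omega) (by omega) hT2
          hab.ne ?_ ?_ (fun u v hu1 hu2 hv1 hv2 => hL.win t hT3 u v hu1 hu2 hv1 hv2)
        · rw [← hm]
          rcases hn2 with h | h
          · left; subst h; exact ⟨rfl, hL.bot⟩
          · right; omega
        · rw [← hm]
          rcases hn1 with h | h
          · left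
            have e0 : n' - R = t := by omega
            rw [e0] at htop
            omega
          · right; omega
      · omega
    · omega
  · intro x y hxy hyx hyn
    obtain ⟨α, β, e, g1, g2, g3, g4, g5, g6, g7, g8⟩ := hpl hxy hyx hyn
    have f5 : (α = 0 ∧ e = 0) ∨ (α + (q + 1) * D ≤ x ∧ α + (q + 1) * D ≤ y) := by
      rw [← hm]
      rcases g5 with h | h
      · exact Or.inl h
      · right; omega
    have f6 : (β = n' ∧ β + e = n) ∨ (x + (q + 1) * D < β ∧ y + (q + 1) * D < β) := by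
      rw [← hm]
      rcases g6 with h | h
      · exact Or.inl h
      · right; omega
    have f5' : (α = 0 ∧ e = 0) ∨ (α + (q + 1) * D ≤ y ∧ α + (q + 1) * D ≤ x) := by
      rcases f5 with h | h
      · exact Or.inl h
      · exact Or.inr ⟨h.2, h.1⟩
    have f6' : (β = n' ∧ β + e = n) ∨ (y + (q + 1) * D < β ∧ x + (q + 1) * D < β) := by
      rcases f6 with h | h
      · exact Or.inl h
      · exact Or.inr ⟨h.2, h.1⟩
    refine ⟨e, by omega, ?_, ?_, ?_, ?_⟩
    · exact cmp2 hD hr hr' g3 g4 g1 (by omega) (by omega) g2 hxy.ne f5 f6 g7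
    · exact cmp2 hD hr hr' g3 g4 (by omega) g2 g1 (by omega) hxy.ne' f5' f6' g7
    · exact cmp2 hD hband hband' g3 g4 g1 (by omega) (by omega) g2 hxy.ne f5 f6 g8
    · exact cmp2 hD hband hband' g3 g4 (by omega) g2 g1 (by omega) hxy.ne' f5' f6' g8

/-- the probabilities of the two orders have the sum one -/
theorem pr_add_pr {D : ℕ} {r : ℕ → ℕ → Prop} (hr : Band D r) {n x y : ℕ} (hx : x < n) (hy : y < n)
    (hxy : x ≠ y) : pr r x y (range n) + pr r y x (range n) = 1 := by
  have hs := hr.strict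
  obtain ⟨h0, h1⟩ := all.pos ℕ r (range n)
  have h2 := h1 x (mem_range.2 hx) y (mem_range.2 hy) hxy
  have h3 : (0 : ℝ) < (En r (range n) : ℝ) := by exact_mod_cast h0
  have h4 : ((Fn r x y (range n) : ℕ) : ℝ) + ((Fn r y x (range n) : ℕ) : ℝ) =
      (En r (range n) : ℕ) := by
    exact_mod_cast h2
  unfold pr
  rw [← add_div, h4, div_self h3.ne']

theorem pr_le_one {D : ℕ} {r : ℕ → ℕ → Prop} (hr : Band D r) {n x y : ℕ} (hx : x < n) (hy : y < n)
    (hxy : x ≠ y) : pr r x y (range n) ≤ 1 := by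
  have h1 := pr_add_pr hr hx hy hxy
  have h2 := Run7.h640.FP2.pr_nonneg r y x (range n)
  linarith

theorem pr_eq_zero {r : ℕ → ℕ → Prop} {n x y : ℕ} (hx : x < n) (hxy : x ≠ y)
    (h : r x y) : pr r y x (range n) = 0 := by
  unfold pr Fn
  rw [Run7.h640.FP2.Fk_rev r h hxy _ _ (mem_range.2 hx), Nat.cast_zero, zero_div]

/-- the condition on the second pair after the outcome `a < b` -/
def W1 (lam : ℝ) (r : ℕ → ℕ → Prop) (n a b w z : ℕ) : Prop :=
  pr r a b (range n) * (1 + pr (add r a b) w z (range n)) ≤ lam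

/-- the condition on the second pair after the outcome `b < a` -/
def W2 (lam : ℝ) (r : ℕ → ℕ → Prop) (n a b w z : ℕ) : Prop :=
  1 - pr r a b (range n) + pr r w z (range n) -
    pr r a b (range n) * pr (add r a b) w z (range n) ≤ lam

/-- a golden partition of `(r, n)` with the constant `lam` -/
def GN (lam : ℝ) (r : ℕ → ℕ → Prop) (n : ℕ) : Prop :=
  ∃ a b, a < b ∧ b < n ∧ ¬ r a b ∧
    (∃ c d, c < d ∧ d < n ∧ W1 lam r n a b c d ∧ W1 lam r n a b d c) ∧
    (∃ c d, c < d ∧ d < n ∧ W2 lam r n a b c d ∧ W2 lam r n a b d c)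

theorem aux1 {p p' s s' e lam : ℝ} (hp : |p' - p| ≤ e) (hs : |s' - s| ≤ e) (hs0 : 0 ≤ s) (hs1 : s ≤ 1)
    (hp0 : 0 ≤ p') (hp1 : p' ≤ 1) (h : p' * (1 + s') ≤ lam) : p * (1 + s) ≤ lam + 4 * e := by
  rw [abs_le] at hp hs
  have he : 0 ≤ e := by linarith [hp.1, hp.2]
  have h1 : (p - p') * (1 + s) ≤ e * 2 := by
    have h2 : p - p' ≤ e := by linarith [hp.1]
    calc (p - p') * (1 + s) ≤ e * (1 + s) := mul_le_mul_of_nonneg_right h2 (by linarith)
      _ ≤ e * 2 := mul_le_mul_of_nonneg_left (by linarith) he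
  have h3 : p' * (s - s') ≤ 1 * e := by
    calc p' * (s - s') ≤ p' * e := mul_le_mul_of_nonneg_left (by linarith [hs.1]) hp0
      _ ≤ 1 * e := mul_le_mul_of_nonneg_right hp1 he
  nlinarith

theorem aux2 {p p' s s' g g' e lam : ℝ} (hp : |p' - p| ≤ e) (hs : |s' - s| ≤ e) (hg : |g' - g| ≤ e)
    (hs0 : 0 ≤ s) (hs1 : s ≤ 1) (hp0 : 0 ≤ p') (hp1 : p' ≤ 1)
    (h : 1 - p' + g' - p' * s' ≤ lam) : 1 - p + g - p * s ≤ lam + 4 * e := by
  rw [abs_le] at hp hs hg
  have he : 0 ≤ e := by linarith [hp.1, hp.2]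
  have h1 : (p' - p) * (1 + s) ≤ e * 2 := by
    have h2 : p' - p ≤ e := by linarith [hp.2]
    calc (p' - p) * (1 + s) ≤ e * (1 + s) := mul_le_mul_of_nonneg_right h2 (by linarith)
      _ ≤ e * 2 := mul_le_mul_of_nonneg_left (by linarith) he
  have h3 : p' * (s' - s) ≤ 1 * e := by
    calc p' * (s' - s) ≤ p' * e := mul_le_mul_of_nonneg_left (by linarith [hs.2]) hp0
      _ ≤ 1 * e := mul_le_mul_of_nonneg_right hp1 he
  nlinarith [hg.1]

theorem transfer {D R q n n' : ℕ} {r r' : ℕ → ℕ → Prop} {δ : ℕ → ℕ} (hD : 1 ≤ D) (hr : Band D r)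
    (hr' : Band D r') (hL : MLoc R r' n' r n δ) (hR : 4 * ((q + 1) * D) + 3 * D ≤ R) {lam : ℝ}
    (h : GN lam r' n') : GN (lam + 16 * rho D ^ q) r n := by
  obtain ⟨a, b, hab, hbn, hrab, ⟨c1, d1, hcd1, hdn1, hw1, hw1'⟩, ⟨c2, d2, hcd2, hdn2, hw2, hw2'⟩⟩ := h
  have hba : b < a + D := by
    by_contra hc
    exact hrab (hr'.far a b (by omega) hab)
  obtain ⟨dd, hbd, hrel, hp, hsec⟩ := key hD hr hr' hL hR hab hba hbn
  have e4 : (16 : ℝ) * rho D ^ q = 4 * (4 * rho D ^ q) := by ring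
  have heps : 0 ≤ rho D ^ q := pow_nonneg (Run7.h640.FP2.rho_nonneg hD) q
  obtain ⟨ε, hε⟩ : ∃ ε : ℝ, 4 * rho D ^ q = ε := ⟨_, rfl⟩
  rw [hε] at hp hsec e4
  rw [e4]
  have hband := band_add hr (a := a + dd) (b := b + dd) (by omega)
  have hband' := band_add hr' (a := a) (b := b) hab
  have hp0 := Run7.h640.FP2.pr_nonneg r' a b (range n')
  have hp1 := pr_le_one hr' (n := n') (x := a) (y := b) (by omega) (by omega) hab.ne
  have hq0 := Run7.h640.FP2.pr_nonneg r (a + dd) (b + dd) (range n)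
  have hq1 := pr_le_one hr (n := n) (x := a + dd) (y := b + dd) (by omega) (by omega) (by omega)
  have hpp := abs_le.1 hp
  have hε0 : 0 ≤ ε := by rw [← hε]; linarith
  -- the pair `a b` again
  have hadd : add r (a + dd) (b + dd) (a + dd) (b + dd) := Or.inr ⟨Or.inl rfl, Or.inl rfl⟩
  have hz := pr_eq_zero (n := n) (x := a + dd) (y := b + dd) (by omega) (by omega) hadd
  have hone := pr_add_pr hband (n := n) (x := a + dd) (y := b + dd) (by omega) (by omega) (by omega)
  rw [hz, add_zero] at hone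
  have hsum := pr_add_pr hr (n := n) (x := a + dd) (y := b + dd) (by omega) (by omega) (by omega)
  refine ⟨a + dd, b + dd, by omega, hbd, fun hc => hrab (hrel.2 hc), ?_, ?_⟩
  · by_cases hnear : d1 < c1 + D
    · obtain ⟨e, he, -, -, h3, h4⟩ := hsec c1 d1 hcd1 hnear hdn1
      refine ⟨c1 + e, d1 + e, by omega, he, ?_, ?_⟩
      · exact aux1 hp h3 (Run7.h640.FP2.pr_nonneg _ _ _ _)
          (pr_le_one hband (by omega) (by omega) (by omega)) hp0 hp1 hw1
      · exact aux1 hp h4 (Run7.h640.FP2.pr_nonneg _ _ _ _)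
          (pr_le_one hband (by omega) (by omega) (by omega)) hp0 hp1 hw1'
    · have hrel1 : add r' a b c1 d1 := Or.inl (hr'.far c1 d1 (by omega) hcd1)
      have hz1 := pr_eq_zero (n := n') (x := c1) (y := d1) (by omega) (by omega) hrel1
      have h1 := pr_add_pr hband' (n := n') (x := c1) (y := d1) (by omega) (by omega) (by omega)
      rw [hz1, add_zero] at h1
      unfold W1 at hw1
      rw [h1] at hw1
      refine ⟨a + dd, b + dd, by omega, hbd, ?_, ?_⟩
      · unfold W1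
        rw [hone]
        linarith [hpp.1]
      · unfold W1
        rw [hz]
        linarith [hpp.1]
  · by_cases hnear : d2 < c2 + D
    · obtain ⟨e, he, h1, h2, h3, h4⟩ := hsec c2 d2 hcd2 hnear hdn2
      refine ⟨c2 + e, d2 + e, by omega, he, ?_, ?_⟩
      · exact aux2 hp h3 h1 (Run7.h640.FP2.pr_nonneg _ _ _ _)
          (pr_le_one hband (by omega) (by omega) (by omega)) hp0 hp1 hw2
      · exact aux2 hp h4 h2 (Run7.h640.FP2.pr_nonneg _ _ _ _)
          (pr_le_one hband (by omega) (by omega) (by omega)) hp0 hp1 hw2'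
    · have hr1 : r' c2 d2 := hr'.far c2 d2 (by omega) hcd2
      have hz1 := pr_eq_zero (n := n') (x := c2) (y := d2) (by omega) (by omega) hr1
      have h1 := pr_add_pr hr' (n := n') (x := c2) (y := d2) (by omega) (by omega) (by omega)
      rw [hz1, add_zero] at h1
      have hz2 := pr_eq_zero (n := n') (x := c2) (y := d2) (by omega) (by omega)
        (show add r' a b c2 d2 from Or.inl hr1)
      have h2 := pr_add_pr hband' (n := n') (x := c2) (y := d2) (by omega) (by omega) (by omega)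
      rw [hz2, add_zero] at h2
      unfold W2 at hw2
      rw [h1, h2] at hw2
      refine ⟨a + dd, b + dd, by omega, hbd, ?_, ?_⟩
      · unfold W2
        rw [hone]
        linarith [hpp.1, hpp.2]
      · unfold W2
        rw [hz]
        linarith [hpp.1, hpp.2]

end Run7.h640.GP2
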