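import Pool.Agent.Run7.h640.FP.Fin

/-!
# Golden partitions: localisation with displacements

`MLoc R r' n' r n δ`: the poset `(r', n')` arises from `(r, n)` by cutting out parts, `δ t` is the
total length of the parts which are cut out below the window of length `R` at `t`.
-/

set_option autoImplicit false

open Finset
open scoped Classical

namespace Run7.h640.GP2

open Run7.h640.FP

/-- windows of length `R` with displacements -/
structure MLoc (R : ℕ) (r' : ℕ → ℕ → Prop) (n' : ℕ) (r : ℕ → ℕ → Prop) (n : ℕ) (δ : ℕ → ℕ) :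
    Prop where
  len' : R ≤ n'
  bot : δ 0 = 0
  top : n' + δ (n' - R) = n
  mono : ∀ s t, s ≤ t → t + R ≤ n' → δ s ≤ δ t
  win : ∀ t, t + R ≤ n' → ∀ u v, t ≤ u → u < t + R → t ≤ v → v < t + R →
    (r' u v ↔ r (u + δ t) (v + δ t))

theorem MLoc.le_top {R n n' : ℕ} {r r' : ℕ → ℕ → Prop} {δ : ℕ → ℕ} (h : MLoc R r' n' r n δ) {t : ℕ}
    (ht : t + R ≤ n') : t + R + δ t ≤ n := by
  have h1 := h.mono t (n' - R) (by omega) (by have := h.len'; omega)
  have h2 := h.top
  omega

theorem mloc_rf {R n : ℕ} {r : ℕ → ℕ → Prop} (h : R ≤ n) : MLoc R r n r n (fun _ => 0) where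
  len' := h
  bot := rfl
  top := rfl
  mono := fun _ _ _ _ => le_rfl
  win := fun _ _ _ _ _ _ _ _ => Iff.rfl

theorem mloc_tr {R n1 n2 n3 : ℕ} {r1 r2 r3 : ℕ → ℕ → Prop} {δ1 δ2 : ℕ → ℕ}
    (h : MLoc R r1 n1 r2 n2 δ1) (h' : MLoc R r2 n2 r3 n3 δ2) :
    MLoc R r1 n1 r3 n3 (fun t => δ1 t + δ2 (t + δ1 t)) where
  len' := h.len'
  bot := by
    show δ1 0 + δ2 (0 + δ1 0) = 0
    rw [h.bot, Nat.zero_add, h'.bot]
  top := by
    show n1 + (δ1 (n1 - R) + δ2 (n1 - R + δ1 (n1 - R))) = n3
    have h1 := h.top
    have h2 := h'.top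
    have h3 := h.len'
    have e : n1 - R + δ1 (n1 - R) = n2 - R := by omega
    rw [e]
    omega
  mono := by
    intro s t hst ht
    have h1 := h.mono s t hst ht
    have h2 := h.le_top ht
    have h3 := h'.mono (s + δ1 s) (t + δ1 t) (by omega) (by omega)
    show δ1 s + δ2 (s + δ1 s) ≤ δ1 t + δ2 (t + δ1 t)
    omega
  win := by
    intro t ht u v hu1 hu2 hv1 hv2
    have h2 := h.le_top ht
    rw [h.win t ht u v hu1 hu2 hv1 hv2,
      h'.win (t + δ1 t) (by omega) (u + δ1 t) (v + δ1 t) (by omega) (by omega) (by omega) (by omega)]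
    show r3 (u + δ1 t + δ2 (t + δ1 t)) (v + δ1 t + δ2 (t + δ1 t)) ↔
      r3 (u + (δ1 t + δ2 (t + δ1 t))) (v + (δ1 t + δ2 (t + δ1 t)))
    rw [Nat.add_assoc, Nat.add_assoc]

/-- the order after a cut -/
theorem mloc_cut {R i j n : ℕ} {r r' : ℕ → ℕ → Prop} (hR : 1 ≤ R) (hRi : R ≤ i) (hij : i < j)
    (hjn : j + R ≤ n)
    (h1 : ∀ u v, u < i + R → v < i + R → (r' u v ↔ r u v))
    (h2 : ∀ u v, i - R ≤ u → i - R ≤ v → (r' u v ↔ r (u + (j - i)) (v + (j - i)))) :
    MLoc R r' (n - (j - i)) r n (fun t => if t < i then 0 else j - i) where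
  len' := by omega
  bot := by
    show (if 0 < i then 0 else j - i) = 0
    rw [if_pos (by omega)]
  top := by
    show n - (j - i) + (if n - (j - i) - R < i then 0 else j - i) = n
    rw [if_neg (by omega)]
    omega
  mono := by
    intro s t hst ht
    show (if s < i then 0 else j - i) ≤ (if t < i then 0 else j - i)
    by_cases hs : s < i
    · rw [if_pos hs]; exact Nat.zero_le _
    · rw [if_neg hs, if_neg (by omega)]
  win := by
    intro t ht u v hu1 hu2 hv1 hv2
    show r' u v ↔ r (u + (if t < i then 0 else j - i)) (v + (if t < i then 0 else j - i))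
    by_cases h : t < i
    · rw [if_pos h]
      exact h1 u v (by omega) (by omega)
    · rw [if_neg h]
      exact h2 u v (by omega) (by omega)

/-- shortening -/
theorem red (D R : ℕ) (hD : 1 ≤ D) (hDR : D ≤ R) : ∀ (n k : ℕ) (r : ℕ → ℕ → Prop), Band D r →
    k + R ≤ n → ∃ (r' : ℕ → ℕ → Prop) (n' k' : ℕ) (δ : ℕ → ℕ), Band D r' ∧ MLoc R r' n' r n δ ∧
      k' + R ≤ n' ∧ Win R r' k' r k ∧ n' ≤ 3 * R + 2 * 2 ^ (2 * R * D) := by
  intro n
  induction n using Nat.strong_induction_on with
  | _ n ih =>
  intro k r hr hk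
  have hC := all.cut
  have hP := all.pig
  obtain ⟨B, hB⟩ : ∃ B : ℕ, B = 2 ^ (2 * R * D) := ⟨_, rfl⟩
  by_cases hn : n ≤ 3 * R + 2 * 2 ^ (2 * R * D)
  · exact ⟨r, n, k, _, hr, mloc_rf (by omega), hk, fun _ _ _ _ => Iff.rfl, hn⟩
  · rw [← hB] at hn
    have hstep : ∃ (i j k1 : ℕ) (r1 : ℕ → ℕ → Prop), R ≤ i ∧ i < j ∧ j + R ≤ n ∧ Band D r1 ∧
        (∀ u v, u < i + R → v < i + R → (r1 u v ↔ r u v)) ∧
        (∀ u v, i - R ≤ u → i - R ≤ v → (r1 u v ↔ r (u + (j - i)) (v + (j - i)))) ∧
        k1 + R ≤ n - (j - i) ∧ Win R r1 k1 r k := by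
      by_cases hA : k + 2 * R + B ≤ n
      · obtain ⟨i, j, h1, h2, h3, h4⟩ := hP D R r hD hr (k + R) (by omega)
        rw [← hB] at h3
        obtain ⟨r1, hr1, e1, e2⟩ := hC D R i j r hD hDR hr (by omega) h2 h4
        exact ⟨i, j, k, r1, by omega, h2, by omega, hr1, e1, e2, by omega,
          fun u v hu hv => e1 _ _ (by omega) (by omega)⟩
      · obtain ⟨i, j, h1, h2, h3, h4⟩ := hP D R r hD hr R le_rfl
        rw [← hB] at h3
        obtain ⟨r1, hr1, e1, e2⟩ := hC D R i j r hD hDR hr (by omega) h2 h4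
        refine ⟨i, j, k - (j - i), r1, by omega, h2, by omega, hr1, e1, e2, by omega, ?_⟩
        intro u v hu hv
        rw [e2 _ _ (by omega) (by omega)]
        have e : ∀ u, k - (j - i) + u + (j - i) = k + u := fun u => by omega
        rw [e, e]
    obtain ⟨i, j, k1, r1, hRi, hij, hjn, hr1, e1, e2, hk1, hw1⟩ := hstep
    obtain ⟨r', n', k', δ, hr', hL, hk', hw, hn'⟩ := ih (n - (j - i)) (by omega) k1 r1 hr1 hk1
    exact ⟨r', n', k', _, hr', mloc_tr hL (mloc_cut (by omega) hRi hij hjn e1 e2), hk',
      Pool.Agent.Run7.h85.FP.win_tr hw hw1, hn'⟩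

/-- adding the relation `a < b` -/
def add (r : ℕ → ℕ → Prop) (a b : ℕ) (u v : ℕ) : Prop :=
  r u v ∨ ((u = a ∨ r u a) ∧ (v = b ∨ r b v))

theorem band_add {D : ℕ} {r : ℕ → ℕ → Prop} (h : Band D r) {a b : ℕ} (hab : a < b) :
    Band D (add r a b) where
  lt := by
    rintro i j (h1 | ⟨h1, h2⟩)
    · exact h.lt _ _ h1
    · have e1 : i ≤ a := by
        rcases h1 with rfl | h1
        · exact le_rfl
        · exact (h.lt _ _ h1).le
      have e2 : b ≤ j := by
        rcases h2 with rfl | h2
        · exact le_rfl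
        · exact (h.lt _ _ h2).le
      omega
  trans := by
    rintro i j k (h1 | ⟨h1, h2⟩) (h3 | ⟨h3, h4⟩)
    · exact Or.inl (h.trans _ _ _ h1 h3)
    · refine Or.inr ⟨Or.inr ?_, h4⟩
      rcases h3 with rfl | h3
      · exact h1
      · exact h.trans _ _ _ h1 h3
    · refine Or.inr ⟨h1, Or.inr ?_⟩
      rcases h2 with rfl | h2
      · exact h3
      · exact h.trans _ _ _ h2 h3
    · exact Or.inr ⟨h1, h4⟩
  far := fun i j h1 h2 => Or.inl (h.far i j h1 h2)

theorem pr_shift {α β δ : ℕ} {ρ' ρ : ℕ → ℕ → Prop}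
    (h : ∀ u v, α ≤ u → u < β → α ≤ v → v < β → (ρ' u v ↔ ρ (u + δ) (v + δ))) {x y : ℕ}
    (hx : α ≤ x) (hx' : x < β) (hy : α ≤ y) (hy' : y < β) :
    pr ρ' x y (Ico α β) = pr ρ (x + δ) (y + δ) (Ico (α + δ) (β + δ)) := by
  have h1 := all.map ℕ ℕ ρ' ρ (fun u => u + δ) (Ico α β) (by
    intro u _ v _ huv
    simp only at huv
    omega) (by
    intro u hu v hv
    rw [mem_Ico] at hu hv
    exact (h u v hu.1 hu.2 hv.1 hv.2).symm)
  have h2 : (Ico α β).image (fun u => u + δ) = Ico (α + δ) (β + δ) := by
    ext z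
    rw [mem_image, mem_Ico]
    constructor
    · rintro ⟨u, hu, rfl⟩
      rw [mem_Ico] at hu
      omega
    · intro hz
      refine ⟨z - δ, mem_Ico.2 (by omega), by omega⟩
  have h3 : En ρ (Ico (α + δ) (β + δ)) = En ρ' (Ico α β) := by
    rw [← h2]
    rw [Run7.h640.FP2.image_dec _ (fun a b => Classical.propDecidable (a = b))]
    exact h1.1
  have h4 : Fn ρ (x + δ) (y + δ) (Ico (α + δ) (β + δ)) = Fn ρ' x y (Ico α β) := by
    rw [← h2]
    rw [Run7.h640.FP2.image_dec _ (fun a b => Classical.propDecidable (a = b))]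
    exact h1.2 x (mem_Ico.2 ⟨hx, hx'⟩) y (mem_Ico.2 ⟨hy, hy'⟩)
  unfold pr
  rw [h3, h4]

/-- comparison of probabilities through a common window -/
theorem cmp2 {D q n n' α β δ x y : ℕ} {ρ ρ' : ℕ → ℕ → Prop} (hD : 1 ≤ D) (hρ : Band D ρ)
    (hρ' : Band D ρ') (hβ : β ≤ n') (hβ' : β + δ ≤ n)
    (hx : α ≤ x) (hx' : x < β) (hy : α ≤ y) (hy' : y < β) (hxy : x ≠ y)
    (hlo : (α = 0 ∧ δ = 0) ∨ (α + (q + 1) * D ≤ x ∧ α + (q + 1) * D ≤ y))
    (hhi : (β = n' ∧ β + δ = n) ∨ (x + (q + 1) * D < β ∧ y + (q + 1) * D < β))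
    (h : ∀ u v, α ≤ u → u < β → α ≤ v → v < β → (ρ' u v ↔ ρ (u + δ) (v + δ))) :
    |pr ρ' x y (range n') - pr ρ (x + δ) (y + δ) (range n)| ≤ 4 * rho D ^ q := by
  have h1 := Run7.h640.FP2.win_cmp (q := q) all.pos all.step all.dual all.map all.locb all.loct hD hρ'
    (n := n') (a := α) (b := β) (x := x) (y := y) hβ hx hy hx' hy' hxy
    (by rcases hlo with h | h
        · exact Or.inl h.1
        · exact Or.inr h)
    (by rcases hhi with h | h
        · exact Or.inl h.1
        · exact Or.inr h)
  have h2 := Run7.h640.FP2.win_cmp (q := q) all.pos all.step all.dual all.map all.locb all.loct hD hρ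
    (n := n) (a := α + δ) (b := β + δ) (x := x + δ) (y := y + δ) hβ' (by omega) (by omega) (by omega)
    (by omega) (by omega)
    (by rcases hlo with h | h
        · exact Or.inl (by omega)
        · exact Or.inr (by omega))
    (by rcases hhi with h | h
        · exact Or.inl (by omega)
        · exact Or.inr (by omega))
  rw [pr_shift h hx hx' hy hy'] at h1
  rw [abs_le] at h1 h2 ⊢
  constructor
  · linarith [h1.1, h2.2]
  · linarith [h1.2, h2.1]

/-- where the second pair goes -/
theorem place {D R m n n' : ℕ} {r r' : ℕ → ℕ → Prop} {δ : ℕ → ℕ}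
    (hr : Band D r) (hr' : Band D r') (hL : MLoc R r' n' r n δ) (hR : 4 * m + 3 * D ≤ R)
    {a b t : ℕ} (hab : a < b) (hT1 : t ≤ a) (hT2 : b < t + R) (hT3 : t + R ≤ n')
    (hT4 : t = 0 ∨ t + (2 * m + 2 * D) ≤ a) (hT5 : t + R = n' ∨ a ≤ t + (2 * m + 2 * D))
    {x y : ℕ} (hxy : x < y) (hyx : y < x + D) (hyn : y < n') :
    ∃ α β e : ℕ, α ≤ x ∧ y < β ∧ β ≤ n' ∧ β + e ≤ n ∧ ((α = 0 ∧ e = 0) ∨ α + m ≤ x) ∧
      ((β = n' ∧ β + e = n) ∨ y + m < β) ∧
      (∀ u v, α ≤ u → u < β → α ≤ v → v < β → (r' u v ↔ r (u + e) (v + e))) ∧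
      (∀ u v, α ≤ u → u < β → α ≤ v → v < β →
        (add r' a b u v ↔ add r (a + δ t) (b + δ t) (u + e) (v + e))) := by
  by_cases hleft : t ≠ 0 ∧ x < t + m
  · -- left of the first pair
    have hM : t + (2 * m + 2 * D) ≤ a := by
      rcases hT4 with h | h
      · exact absurd h hleft.1
      · exact h
    have hαt : x - m ≤ t := by omega
    have hle := hL.le_top (t := x - m) (by omega)
    have hmo := hL.mono (x - m) t hαt hT3
    refine ⟨x - m, x + D + m, δ (x - m), by omega, by omega, by omega, by omega, ?_, Or.inr (by omega),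
      ?_, ?_⟩
    · by_cases hxm : x < m
      · left
        have e0 : x - m = 0 := by omega
        rw [e0]
        exact ⟨rfl, hL.bot⟩
      · right; omega
    · intro u v hu1 hu2 hv1 hv2
      exact hL.win (x - m) (by omega) u v hu1 (by omega) hv1 (by omega)
    · intro u v hu1 hu2 hv1 hv2
      have h1 := hL.win (x - m) (by omega) u v hu1 (by omega) hv1 (by omega)
      unfold add
      constructor
      · rintro (h | ⟨-, h⟩)
        · exact Or.inl (h1.1 h)
        · exfalso
          rcases h with h | h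
          · omega
          · have := hr'.lt _ _ h
            omega
      · rintro (h | ⟨-, h⟩)
        · exact Or.inl (h1.2 h)
        · exfalso
          rcases h with h | h
          · omega
          · have := hr.lt _ _ h
            omega
  · by_cases hright : t + R ≠ n' ∧ t + R ≤ y + m
    · -- right of the first pair
      have hM : a ≤ t + (2 * m + 2 * D) := by
        rcases hT5 with h | h
        · exact absurd h hright.1
        · exact h
      have hαa : a < x - m := by omega
      by_cases hend : x - m + R ≤ n'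
      · have hle := hL.le_top (t := x - m) hend
        have hmo := hL.mono t (x - m) (by omega) hend
        refine ⟨x - m, x - m + R, δ (x - m), by omega, by omega, by omega, by omega,
          Or.inr (by omega), Or.inr (by omega), ?_, ?_⟩
        · intro u v hu1 hu2 hv1 hv2
          exact hL.win (x - m) (by omega) u v hu1 (by omega) hv1 (by omega)
        · intro u v hu1 hu2 hv1 hv2
          have h1 := hL.win (x - m) (by omega) u v hu1 (by omega) hv1 (by omega)
          unfold add
          constructor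
          · rintro (h | ⟨h, -⟩)
            · exact Or.inl (h1.1 h)
            · exfalso
              rcases h with h | h
              · omega
              · have := hr'.lt _ _ h
                omega
          · rintro (h | ⟨h, -⟩)
            · exact Or.inl (h1.2 h)
            · exfalso
              rcases h with h | h
              · omega
              · have := hr.lt _ _ h
                omega
      · have hlen := hL.len'
        have htop := hL.top
        have hmo := hL.mono t (n' - R) (by omega) (by omega)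
        refine ⟨x - m, n', δ (n' - R), by omega, by omega, by omega, by omega,
          Or.inr (by omega), Or.inl (by omega), ?_, ?_⟩
        · intro u v hu1 hu2 hv1 hv2
          exact hL.win (n' - R) (by omega) u v (by omega) (by omega) (by omega) (by omega)
        · intro u v hu1 hu2 hv1 hv2
          have h1 := hL.win (n' - R) (by omega) u v (by omega) (by omega) (by omega) (by omega)
          unfold add
          constructor
          · rintro (h | ⟨h, -⟩)
            · exact Or.inl (h1.1 h)
            · exfalso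
              rcases h with h | h
              · omega
              · have := hr'.lt _ _ h
                omega
          · rintro (h | ⟨h, -⟩)
            · exact Or.inl (h1.2 h)
            · exfalso
              rcases h with h | h
              · omega
              · have := hr.lt _ _ h
                omega
    · -- near the first pair
      have hle := hL.le_top (t := t) hT3
      have htop := hL.top
      refine ⟨t, t + R, δ t, by omega, by omega, by omega, by omega, ?_, ?_, ?_, ?_⟩
      · by_cases ht0 : t = 0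
        · left; subst ht0; exact ⟨rfl, hL.bot⟩
        · right
          by_contra hc
          exact hleft ⟨ht0, by omega⟩
      · by_cases htn : t + R = n'
        · left
          have e0 : n' - R = t := by omega
          rw [e0] at htop
          omega
        · right
          by_contra hc
          exact hright ⟨htn, by omega⟩
      · intro u v hu1 hu2 hv1 hv2
        exact hL.win t hT3 u v hu1 hu2 hv1 hv2
      · intro u v hu1 hu2 hv1 hv2
        unfold add
        rw [hL.win t hT3 u v hu1 hu2 hv1 hv2, hL.win t hT3 u a hu1 hu2 hT1 (by omega),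
          hL.win t hT3 b v (by omega) hT2 hv1 hv2, Nat.add_right_cancel_iff,
          Nat.add_right_cancel_iff]

end Run7.h640.GP2
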