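import Pool.Agent.Run7.h640.GP2.Trans

/-!
# Golden partitions: finite reduction
-/

set_option autoImplicit false

open Finset
open scoped Classical

namespace Run7.h640.GP2

open Run7.h640.FP Pool.Agent.H13R3.WB Pool.Agent.Y491 Pool.Agent.Y491.GP

theorem cnt_le (α : Type) [Fintype α] [PartialOrder α] (p : (α ≃ Fin (Fintype.card α)) → Prop) :
    ((cnt p : ℕ) : ℝ) ≤ ((BF.LE α).card : ℝ) := by
  rw [cnt_eq]
  exact_mod_cast Finset.card_filter_le _ _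

theorem GPv.mono {α : Type} [Fintype α] [PartialOrder α] {l1 l2 : ℝ} (h : GPv l1 α) (h12 : l1 ≤ l2) :
    GPv l2 α := by
  obtain ⟨a, b, hab, hba, hG⟩ := h
  refine ⟨a, b, hab, hba, fun u v huv => ?_⟩
  obtain ⟨c, d, hcd, hG2⟩ := hG u v huv
  refine ⟨c, d, hcd, fun w z hwz => (hG2 w z hwz).trans ?_⟩
  exact mul_le_mul_of_nonneg_right h12 (Nat.cast_nonneg _)

theorem GPv.triv {α : Type} [Fintype α] [PartialOrder α] (h : ∃ x y : α, ¬ x ≤ y ∧ ¬ y ≤ x)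
    {l : ℝ} (hl : 2 ≤ l) : GPv l α := by
  obtain ⟨a, b, hab, hba⟩ := h
  have hne : a ≠ b := fun hc => hab (by rw [hc])
  refine ⟨a, b, hab, hba, fun u v _ => ⟨a, b, hne, fun w z _ => ?_⟩⟩
  have h1 := cnt_le α (fun f : α ≃ Fin (Fintype.card α) => f u < f v)
  have h2 := cnt_le α (fun f : α ≃ Fin (Fintype.card α) => f u < f v ∧ f w < f z)
  have h3 : (0 : ℝ) ≤ ((BF.LE α).card : ℝ) := Nat.cast_nonneg _
  nlinarith

theorem GPv.of_gold {α : Type} [Fintype α] [PartialOrder α] {a b : α} (h : ¬ a ≤ b ∧ ¬ b ≤ a)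
    (hG : Gold α a b) : GPv 1 α := by
  refine ⟨a, b, h.1, h.2, fun u v huv => ?_⟩
  obtain ⟨c, d, hcd, hG2⟩ := hG u v huv
  refine ⟨c, d, hcd, fun w z hwz => ?_⟩
  have h1 := hG2 w z hwz
  rw [LE_ncard] at h1
  rw [one_mul]
  exact_mod_cast h1

/-- thin posets which are larger than `N` -/
theorem thin_step {D q R N : ℕ} (hD : 1 ≤ D) (hR1 : 4 * ((q + 1) * D) + 3 * D ≤ R)
    (hN : 3 * R + 2 * 2 ^ (2 * R * D) ≤ N) (P : Type) [Fintype P] [PartialOrder P]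
    (hP : ∃ x y : P, ¬ x ≤ y ∧ ¬ y ≤ x) (hcard : N < Fintype.card P) (r : ℕ → ℕ → Prop)
    (e : P ≃ Fin (Fintype.card P)) (hr : Band D r)
    (he : ∀ x y : P, r (e x : ℕ) (e y : ℕ) ↔ x < y) :
    ∃ (Q : Type) (_ : Fintype Q) (_ : PartialOrder Q), Fintype.card Q ≤ N ∧
      (∃ x y : Q, ¬ x ≤ y ∧ ¬ y ≤ x) ∧
      ∀ lam : ℝ, GPv lam Q → GPv (lam + 16 * rho D ^ q) P := by
  obtain ⟨m, hm⟩ : ∃ m, m = (q + 1) * D := ⟨_, rfl⟩
  have hDm : D ≤ m := by rw [hm]; nlinarith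
  have hR1' : 4 * m + 3 * D ≤ R := by rw [hm]; exact hR1
  have hDR : D ≤ R := by omega
  have hRn : R ≤ Fintype.card P := by omega
  -- an incomparable pair
  obtain ⟨x, y, hxy1, hxy2, hlt⟩ : ∃ x y : P, ¬ x ≤ y ∧ ¬ y ≤ x ∧ (e x : ℕ) < (e y : ℕ) := by
    obtain ⟨x, y, h1, h2⟩ := hP
    rcases lt_trichotomy (e x : ℕ) (e y : ℕ) with h | h | h
    · exact ⟨x, y, h1, h2, h⟩
    · exact absurd (e.injective (Fin.ext h)) (fun hc => h1 (by rw [hc]))
    · exact ⟨y, x, h2, h1, h⟩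
  have hnr : ¬ r (e x : ℕ) (e y : ℕ) := fun hc => hxy1 ((he x y).1 hc).le
  have hnear : (e y : ℕ) < (e x : ℕ) + D := by
    by_contra hc
    exact hnr (hr.far _ _ (by omega) hlt)
  have hyn := (e y).2
  obtain ⟨k, hk1, hk2, hk3⟩ : ∃ k : ℕ, k ≤ (e x : ℕ) ∧ (e y : ℕ) < k + R ∧
      k + R ≤ Fintype.card P := by
    by_cases h : (e x : ℕ) + R ≤ Fintype.card P
    · exact ⟨e x, le_rfl, by omega, h⟩
    · exact ⟨Fintype.card P - R, by omega, by omega, by omega⟩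
  obtain ⟨r', n', k', δ, hr', hL, hk', hwin, hn'⟩ := red D R hD hDR (Fintype.card P) k r hr hk3
  obtain ⟨Q, i1, i2, e', hcQ, he', -⟩ := all.back all.conn all.map D n' r' hr'
  refine ⟨Q, i1, i2, by omega, ?_, ?_⟩
  · have h1 := hwin ((e x : ℕ) - k) ((e y : ℕ) - k) (by omega) (by omega)
    have e1 : k + ((e x : ℕ) - k) = e x := by omega
    have e2 : k + ((e y : ℕ) - k) = e y := by omega
    rw [e1, e2] at h1
    have hn1 : ¬ r' (k' + ((e x : ℕ) - k)) (k' + ((e y : ℕ) - k)) := fun hc => hnr (h1.1 hc)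
    have hs : ∀ k : ℕ, k < n' → ∃ x : Q, (e' x : ℕ) = k := fun k hk => ⟨e'.symm ⟨k, hk⟩, by simp⟩
    obtain ⟨u, hu⟩ := hs (k' + ((e x : ℕ) - k)) (by omega)
    obtain ⟨v, hv⟩ := hs (k' + ((e y : ℕ) - k)) (by omega)
    rw [← hu, ← hv] at hn1
    have hne : u ≠ v := by
      intro hc
      rw [hc] at hu
      omega
    refine ⟨u, v, fun hc => hn1 ((he' u v).2 (lt_of_le_of_ne hc hne)), fun hc => ?_⟩
    have h2 := hr'.lt _ _ ((he' v u).2 (lt_of_le_of_ne hc hne.symm))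
    omega
  · intro lam hG
    exact GPv_of_GN _ hr e he (transfer hD hr hr' hL hR1 (GN_of_GPv lam e' he' hG))

/-- the numerical part -/
theorem numeric2 {D : ℕ} (hD : 1 ≤ D) (N : ℕ) (hN : 1 ≤ N) :
    1 ≤ 8 * √(2 * CC D) * (N : ℝ) ^ (-(cc D / 2)) ∨
      ∃ q R : ℕ, 4 * ((q + 1) * D) + 3 * D ≤ R ∧ 3 * R + 2 * 2 ^ (2 * R * D) ≤ N ∧
        16 * rho D ^ q ≤ 8 * √(2 * CC D) * (N : ℝ) ^ (-(cc D / 2)) := by
  have hN0 : (0 : ℝ) < N := by exact_mod_cast hN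
  have hC := CC_pos hD
  have hr := half_le_rho hD
  have hr1 := rho_lt_one hD
  have hs : √(2 * CC D * (N : ℝ) ^ (-cc D)) = √(2 * CC D) * (N : ℝ) ^ (-(cc D / 2)) := by
    rw [Real.sqrt_mul (by linarith)]
    congr 1
    rw [Real.sqrt_eq_rpow, ← Real.rpow_mul hN0.le]
    congr 1
    ring
  rw [mul_assoc, ← hs]
  rcases numeric hD N hN with h | ⟨q, hq1, hq2⟩
  · left
    have h1 : (1 : ℝ) ≤ √(2 * CC D * (N : ℝ) ^ (-cc D)) := by
      rw [Real.one_le_sqrt]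
      linarith
    linarith
  · right
    refine ⟨q / 2, 2 * (q + 8) * D, ?_, hq1, ?_⟩
    · have h1 : 4 * (q / 2 + 1) + 3 ≤ 2 * (q + 8) := by omega
      calc 4 * ((q / 2 + 1) * D) + 3 * D = (4 * (q / 2 + 1) + 3) * D := by ring
        _ ≤ 2 * (q + 8) * D := Nat.mul_le_mul_right _ h1
    · have h1 : (rho D ^ (q / 2)) ^ 2 ≤ 2 * rho D ^ q := by
        have h2 : rho D ^ (2 * (q / 2) + 1) ≤ rho D ^ q :=
          pow_le_pow_of_le_one (by linarith) hr1.le (by omega)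
        have h3 : rho D ^ (2 * (q / 2) + 1) = (rho D ^ (q / 2)) ^ 2 * rho D := by
          rw [pow_succ, mul_comm 2, pow_mul]
        rw [h3] at h2
        have h4 : 0 ≤ (rho D ^ (q / 2)) ^ 2 := by positivity
        nlinarith
      have h5 : (2 * rho D ^ (q / 2)) ^ 2 ≤ 2 * CC D * (N : ℝ) ^ (-cc D) := by
        calc (2 * rho D ^ (q / 2)) ^ 2 = 4 * (rho D ^ (q / 2)) ^ 2 := by ring
          _ ≤ 4 * (2 * rho D ^ q) := by linarith
          _ = 2 * (4 * rho D ^ q) := by ring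
          _ ≤ 2 * (CC D * (N : ℝ) ^ (-cc D)) := by linarith
          _ = 2 * CC D * (N : ℝ) ^ (-cc D) := by ring
      have h6 : 2 * rho D ^ (q / 2) ≤ √(2 * CC D * (N : ℝ) ^ (-cc D)) := by
        apply Real.le_sqrt_of_sq_le h5
      linarith

theorem cnt_and_total (α : Type) [Fintype α] [PartialOrder α] (u v w z : α) (hwz : w ≠ z) :
    cnt (fun f : α ≃ Fin (Fintype.card α) => f u < f v ∧ f w < f z) +
      cnt (fun f : α ≃ Fin (Fintype.card α) => f u < f v ∧ f z < f w) =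
      cnt (fun f : α ≃ Fin (Fintype.card α) => f u < f v) := by
  rw [cnt_eq, cnt_eq, cnt_eq]
  rw [← Finset.card_union_of_disjoint]
  · congr 1
    ext f
    simp only [Finset.mem_union, Finset.mem_filter]
    constructor
    · rintro (⟨h1, h2, h3⟩ | ⟨h1, h2, h3⟩)
      · exact ⟨h1, h2⟩
      · exact ⟨h1, h2⟩
    · rintro ⟨h1, h2⟩
      rcases lt_trichotomy (f w) (f z) with h | h | h
      · exact Or.inl ⟨h1, h2, h⟩
      · exact absurd (f.injective h) hwz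
      · exact Or.inr ⟨h1, h2, h⟩
  · rw [Finset.disjoint_filter]
    intro f _ h1 h2
    exact lt_asymm h1.2 h2.2

/-- the two-element antichain -/
theorem exists_two' : ∃ (Q : Type) (_ : Fintype Q) (_ : PartialOrder Q),
    Fintype.card Q = 2 ∧ (∃ x y : Q, ¬ x ≤ y ∧ ¬ y ≤ x) ∧ ∀ lam : ℝ, GPv lam Q → 1 ≤ lam := by
  obtain ⟨Q, i1, i2, h1, -, x, y, h2⟩ := exists_two all prove_FEB
  refine ⟨Q, i1, i2, h1, ⟨x, y, h2⟩, ?_⟩
  rintro lam ⟨a, b, hab, hba, hG⟩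
  obtain ⟨c, d, hcd, hG2⟩ := hG a b (Or.inl ⟨rfl, rfl⟩)
  have g1 := hG2 c d (Or.inl ⟨rfl, rfl⟩)
  have g2 := hG2 d c (Or.inr ⟨rfl, rfl⟩)
  have hN : (BF.LE Q).card ≤ 2 := by
    have h3 : (BF.LE Q).card ≤ Fintype.card (Q ≃ Fin (Fintype.card Q)) := Finset.card_le_univ _
    have h4 : Fintype.card (Q ≃ Fin (Fintype.card Q)) = (Fintype.card Q).factorial :=
      Fintype.card_equiv (Fintype.equivFin Q)
    have h5 : (Fintype.card Q).factorial = 2 := by rw [h1]; rfl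
    omega
  have hN0 : 0 < (BF.LE Q).card := by
    have : (0 : ℝ) < (BF.LE Q).card := BF.Npos
    exact_mod_cast this
  have hpos : 0 < cnt (fun f : Q ≃ Fin (Fintype.card Q) => f a < f b) := cnt_pos hba
  have hsum := cnt_and_total Q a b c d hcd
  have hNR : ((BF.LE Q).card : ℝ) ≤ 2 := by exact_mod_cast hN
  have hNR0 : (0 : ℝ) < ((BF.LE Q).card : ℝ) := by exact_mod_cast hN0
  have hposR : (1 : ℝ) ≤ ((cnt (fun f : Q ≃ Fin (Fintype.card Q) => f a < f b) : ℕ) : ℝ) := by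
    exact_mod_cast hpos
  have hor : 1 ≤ cnt (fun f : Q ≃ Fin (Fintype.card Q) => f a < f b ∧ f c < f d) ∨
      1 ≤ cnt (fun f : Q ≃ Fin (Fintype.card Q) => f a < f b ∧ f d < f c) := by omega
  have hfin : (2 : ℝ) ≤ lam * ((BF.LE Q).card : ℝ) := by
    rcases hor with h | h
    · have : (1 : ℝ) ≤
          ((cnt (fun f : Q ≃ Fin (Fintype.card Q) => f a < f b ∧ f c < f d) : ℕ) : ℝ) := by
        exact_mod_cast h
      linarith
    · have : (1 : ℝ) ≤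
          ((cnt (fun f : Q ≃ Fin (Fintype.card Q) => f a < f b ∧ f d < f c) : ℕ) : ℝ) := by
        exact_mod_cast h
      linarith
  by_contra hlt
  push Not at hlt
  nlinarith

theorem main : ∃ C c : ℝ, 0 < C ∧ 0 < c ∧ ∀ (P : Type) [Fintype P] [PartialOrder P],
    (∃ x y : P, ¬ x ≤ y ∧ ¬ y ≤ x) → ∀ n : ℕ, 2 ≤ n →
      ∃ (Q : Type) (_ : Fintype Q) (_ : PartialOrder Q), Fintype.card Q ≤ n ∧
        (∃ x y : Q, ¬ x ≤ y ∧ ¬ y ≤ x) ∧
        ∀ lam : ℝ, GPv lam Q → GPv (lam + C * (n : ℝ) ^ (-c)) P := by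
  obtain ⟨K, hK⟩ := thick
  obtain ⟨D, hDK⟩ : ∃ D : ℕ, D = 2 * K + 2 := ⟨_, rfl⟩
  have hD : 1 ≤ D := by omega
  have hC := CC_pos hD
  have hc := cc_pos hD
  obtain ⟨Q0, j1, j2, hQ0, hQ0', hQ0''⟩ := exists_two'
  refine ⟨8 * √(2 * CC D), cc D / 2, by positivity, by positivity, ?_⟩
  intro P _ _ hP n hn
  have hn0 : (0 : ℝ) < n := by exact_mod_cast (by omega : 0 < n)
  have herr : 0 < 8 * √(2 * CC D) * (n : ℝ) ^ (-(cc D / 2)) := by positivity
  rcases numeric2 hD n (by omega) with h | ⟨q, R, h1, h2, h3⟩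
  · refine ⟨Q0, j1, j2, by omega, hQ0', fun lam hG => GPv.triv hP ?_⟩
    have := hQ0'' lam hG
    linarith
  · by_cases hcard : Fintype.card P ≤ n
    · exact ⟨P, inferInstance, inferInstance, hcard, hP, fun lam hG => hG.mono (by linarith)⟩
    · by_cases hth : ∃ x : P, K ≤ {y : P | ¬ x ≤ y ∧ ¬ y ≤ x}.ncard
      · obtain ⟨a, b, hab, hG⟩ := hK P hth
        exact ⟨Q0, j1, j2, by omega, hQ0',
          fun lam hG' => (GPv.of_gold hab hG).mono (by have := hQ0'' lam hG'; linarith)⟩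
      · have hthin : ∀ x : P, Nat.card {y : P // ¬ x ≤ y ∧ ¬ y ≤ x} ≤ K := by
          intro x
          by_contra hc
          refine hth ⟨x, ?_⟩
          have e1 : Nat.card {y : P // ¬ x ≤ y ∧ ¬ y ≤ x} = {y : P | ¬ x ≤ y ∧ ¬ y ≤ x}.ncard := by
            rw [← Nat.card_coe_set_eq]; rfl
          rw [← e1]
          omega
        obtain ⟨r, e, hband, he, -⟩ := all.top all.conn all.map P K hthin
        rw [← hDK] at hband
        obtain ⟨Q, i1, i2, hQ1, hQ2, hQ3⟩ := thin_step hD h1 h2 P hP (by omega) r e hband he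
        exact ⟨Q, i1, i2, hQ1, hQ2, fun lam hG => (hQ3 lam hG).mono (by linarith)⟩

end Run7.h640.GP2
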