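import Pool.Agent.Run7.h640.GP2.Main

/-!
# Golden partitions: sorting
-/

set_option autoImplicit false

open Finset
open scoped Classical

namespace Run7.h640.GP2

open Run7.h640.FP Pool.Agent.H13R3.WB Pool.Agent.Y491 Pool.Agent.Y491.GP

/-- `k` comparisons suffice to find an unknown element of `F` -/
def Sorts {α : Type} {N : ℕ} : ℕ → Set (α ≃ Fin N) → Prop
  | 0, F => F.Subsingleton
  | k + 1, F => F.Subsingleton ∨
      ∃ a b : α, a ≠ b ∧ Sorts k {f | f ∈ F ∧ f a < f b} ∧ Sorts k {f | f ∈ F ∧ f b < f a}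

theorem Sorts.of_sub {α : Type} {N : ℕ} {F : Set (α ≃ Fin N)} (h : F.Subsingleton) (k : ℕ) :
    Sorts k F := by
  cases k with
  | zero => exact h
  | succ k => exact Or.inl h

/-- the linear extensions -/
def LEs (α : Type) [Fintype α] [PartialOrder α] : Set (α ≃ Fin (Fintype.card α)) :=
  {f | StrictMono (f : α → Fin (Fintype.card α))}

theorem chain_sub (α : Type) [Fintype α] [PartialOrder α] (h : ¬ ∃ x y : α, ¬ x ≤ y ∧ ¬ y ≤ x) :
    (LEs α).Subsingleton := by
  intro f hf g hg
  have hf' : StrictMono (f : α → Fin (Fintype.card α)) := hf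
  have hg' : StrictMono (g : α → Fin (Fintype.card α)) := hg
  have h1 : StrictMono (fun i => f (g.symm i)) := by
    intro i j hij
    apply hf'
    have h2 : g.symm i ≤ g.symm j ∨ g.symm j ≤ g.symm i := by
      by_contra hc
      push Not at hc
      exact h ⟨_, _, hc.1, hc.2⟩
    have hne : g.symm i ≠ g.symm j := fun hc => hij.ne (g.symm.injective hc)
    rcases h2 with h2 | h2
    · exact lt_of_le_of_ne h2 hne
    · exfalso
      have h3 := hg' (lt_of_le_of_ne h2 hne.symm)
      rw [Equiv.apply_symm_apply, Equiv.apply_symm_apply] at h3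
      exact lt_asymm h3 hij
  have h2 : (fun i => f (g.symm i)) = (id : Fin (Fintype.card α) → Fin (Fintype.card α)) := by
    refine (StrictMono.range_inj h1 strictMono_id).1 ?_
    rw [Set.range_id]
    exact (g.symm.trans f).surjective.range_eq
  ext x
  have h3 := congrFun h2 (g x)
  simp only [Equiv.symm_apply_apply, id] at h3
  rw [h3]

theorem LE_card_eq (α : Type) [Fintype α] [PartialOrder α] (u v : α) (h : ¬ v ≤ u) :
    (@BF.LE (Cp α) _ (addRel u v h)).card =
      cnt (fun f : α ≃ Fin (Fintype.card α) => f u < f v) := by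
  rw [← @LE_ncard (Cp α) _ (addRel u v h)]
  unfold GP.cnt
  rw [← Nat.card_coe_set_eq, ← Nat.card_coe_set_eq]
  refine Nat.card_congr (Equiv.subtypeEquivRight fun f => ?_)
  have := mono_iff u v h f
  constructor
  · intro h3
    exact this.1 (fun x y hxy => (@StrictMono.monotone (Cp α) _ (addRel u v h) _ f h3) hxy)
  · intro h3
    exact @Monotone.strictMono_of_injective (Cp α) _ (addRel u v h).toPreorder _ f
      (fun x y hxy => this.2 h3 x y hxy) f.injective

theorem LEs_eq (α : Type) [Fintype α] [PartialOrder α] (u v : α) (h : ¬ v ≤ u) :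
    @LEs (Cp α) _ (addRel u v h) =
      {f : α ≃ Fin (Fintype.card α) | f ∈ LEs α ∧ f u < f v} := by
  ext f
  have := mono_iff u v h f
  constructor
  · intro h3
    exact this.1 (fun x y hxy => (@StrictMono.monotone (Cp α) _ (addRel u v h) _ f h3) hxy)
  · intro h3
    exact @Monotone.strictMono_of_injective (Cp α) _ (addRel u v h).toPreorder _ f
      (fun x y hxy => this.2 h3 x y hxy) f.injective

theorem cnt_sub (α : Type) [Fintype α] [PartialOrder α] (p : (α ≃ Fin (Fintype.card α)) → Prop)
    (h : cnt p ≤ 1) : {f | f ∈ LEs α ∧ p f}.Subsingleton := by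
  rw [cnt_eq, Finset.card_le_one] at h
  intro f hf g hg
  exact h f (by rw [Finset.mem_filter]; exact ⟨BF.mem_LE.2 hf.1, hf.2⟩) g
    (by rw [Finset.mem_filter]; exact ⟨BF.mem_LE.2 hg.1, hg.2⟩)

/-- after two comparisons -/
theorem second_step {x : ℝ} (P : Type) [Fintype P] [PartialOrder P] (u v : P) (hvu : ¬ v ≤ u)
    (c d : P) (j : ℕ)
    (hlt : ((cnt (fun f : P ≃ Fin (Fintype.card P) => f u < f v ∧ f c < f d) : ℕ) : ℝ) <
      x ^ (j + 1))
    (ih : ∀ (Q : Type) [Fintype Q] [PartialOrder Q], ((BF.LE Q).card : ℝ) < x ^ (j + 1) →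
      Sorts j (LEs Q)) :
    Sorts j {f | f ∈ {f : P ≃ Fin (Fintype.card P) | f ∈ LEs P ∧ f u < f v} ∧ f c < f d} := by
  rw [← LEs_eq P u v hvu]
  by_cases hdc : @LE.le (Cp P) (addRel u v hvu).toLE d c
  · -- the outcome is impossible
    apply Sorts.of_sub
    rintro f ⟨hf, hf2⟩ g -
    exfalso
    have h1 : @Monotone (Cp P) _ (addRel u v hvu).toPreorder _ f :=
      @StrictMono.monotone (Cp P) _ (addRel u v hvu) _ f hf
    exact absurd (h1 hdc) (not_le.2 hf2)
  · have h1 := @LEs_eq (Cp P) _ (addRel u v hvu) c d hdc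
    have h2 := @ih (Cp (Cp P)) _ (@addRel (Cp P) (addRel u v hvu) c d hdc)
    rw [h1, @LE_card_eq (Cp P) _ (addRel u v hvu) c d hdc] at h2
    apply h2
    have h3 : @Pool.Agent.Y491.GP.cnt (Cp P) _ (addRel u v hvu) (fun f => f c < f d) =
        cnt (fun f : P ≃ Fin (Fintype.card P) => f u < f v ∧ f c < f d) := by
      unfold Pool.Agent.Y491.GP.cnt
      congr 1
      ext f
      have h4 := mono_iff u v hvu f
      constructor
      · rintro ⟨h5, h6⟩
        have h7 := h4.1 (fun x y hxy =>
          (@StrictMono.monotone (Cp P) _ (addRel u v hvu) _ f h5) hxy)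
        exact ⟨h7.1, h7.2, h6⟩
      · rintro ⟨h5, h6, h7⟩
        exact ⟨@Monotone.strictMono_of_injective (Cp P) _ (addRel u v hvu).toPreorder _ f
          (fun x y hxy => h4.2 ⟨h5, h6⟩ x y hxy) f.injective, h7⟩
    rw [h3]
    exact hlt

/-- the induction -/
theorem sorts_of_golden {ε x : ℝ} (hx : 1 < x) (hxe : (1 + ε) * x ^ 2 ≤ x + 1)
    (H : ∀ (P : Type) [Fintype P] [PartialOrder P], (∃ x y : P, ¬ x ≤ y ∧ ¬ y ≤ x) →
      GPv (1 + ε) P) :
    ∀ (k : ℕ) (P : Type) [Fintype P] [PartialOrder P], ((BF.LE P).card : ℝ) < x ^ (k + 1) →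
      Sorts k (LEs P) := by
  have hx0 : 0 < x := by linarith
  intro k
  induction k using Nat.strong_induction_on with
  | _ k ih =>
  intro P _ _ hcard
  by_cases hP : ∃ x y : P, ¬ x ≤ y ∧ ¬ y ≤ x
  · obtain ⟨a, b, hab, hba, hG⟩ := H P hP
    have hN : (0 : ℝ) < ((BF.LE P).card : ℝ) := BF.Npos
    -- one outcome of the first comparison
    have main : ∀ u v : P, ¬ v ≤ u → ((u = a ∧ v = b) ∨ (u = b ∧ v = a)) →
        ∃ j : ℕ, k = j + 1 ∧ Sorts j {f | f ∈ LEs P ∧ f u < f v} := by
      intro u v hvu huv
      have hpos := cnt_pos hvu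
      obtain ⟨c, d, hcd, hG2⟩ := hG u v huv
      have g1 := hG2 c d (Or.inl ⟨rfl, rfl⟩)
      have g2 := hG2 d c (Or.inr ⟨rfl, rfl⟩)
      have hsum := cnt_and_total P u v c d hcd
      -- the smaller case
      by_cases hsmall : ((cnt (fun f : P ≃ Fin (Fintype.card P) => f u < f v) : ℕ) : ℝ) < x ^ k
      · rcases Nat.eq_zero_or_pos k with hk | hk
        · exfalso
          rw [hk, pow_zero] at hsmall
          have : (1 : ℝ) ≤ ((cnt (fun f : P ≃ Fin (Fintype.card P) => f u < f v) : ℕ) : ℝ) := by
            exact_mod_cast hpos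
          linarith
        · obtain ⟨j, rfl⟩ : ∃ j, k = j + 1 := ⟨k - 1, by omega⟩
          refine ⟨j, rfl, ?_⟩
          have h1 := @ih j (by omega) (Cp P) _ (addRel u v hvu)
          rw [LE_card_eq P u v hvu, LEs_eq P u v hvu] at h1
          exact h1 hsmall
      · push Not at hsmall
        have hbig : ∀ t : ℝ, ((cnt (fun f : P ≃ Fin (Fintype.card P) => f u < f v) : ℕ) : ℝ) + t ≤
            (1 + ε) * ((BF.LE P).card : ℝ) → t * x < x ^ k := by
          intro t ht
          have h1 : (1 + ε) * ((BF.LE P).card : ℝ) * x ^ 2 ≤ (x + 1) * ((BF.LE P).card : ℝ) := by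
            calc (1 + ε) * ((BF.LE P).card : ℝ) * x ^ 2 =
                ((1 + ε) * x ^ 2) * ((BF.LE P).card : ℝ) := by ring
              _ ≤ _ := mul_le_mul_of_nonneg_right hxe hN.le
          have h2 : (((cnt (fun f : P ≃ Fin (Fintype.card P) => f u < f v) : ℕ) : ℝ) + t) * x ^ 2 ≤
              (x + 1) * ((BF.LE P).card : ℝ) :=
            (mul_le_mul_of_nonneg_right ht (by positivity)).trans h1
          have h3 : x ^ k * x ^ 2 ≤
              ((cnt (fun f : P ≃ Fin (Fintype.card P) => f u < f v) : ℕ) : ℝ) * x ^ 2 :=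
            mul_le_mul_of_nonneg_right hsmall (by positivity)
          have h4 : (x + 1) * ((BF.LE P).card : ℝ) < (x + 1) * x ^ (k + 1) :=
            mul_lt_mul_of_pos_left hcard (by linarith)
          have h5 : t * x ^ 2 < x ^ k * x := by
            have e1 : (x + 1) * x ^ (k + 1) = x ^ k * x ^ 2 + x ^ k * x := by ring
            nlinarith
          have h6 : t * x * x < x ^ k * x := by
            calc t * x * x = t * x ^ 2 := by ring
              _ < _ := h5
          exact lt_of_mul_lt_mul_right h6 hx0.le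
        have k1 := hbig _ g1
        have k2 := hbig _ g2
        -- at least two more comparisons are possible
        have hk2 : ∃ j, k = j + 2 := by
          rcases Nat.lt_or_ge k 2 with hk | hk
          · exfalso
            have hxk : x ^ k ≤ x := by
              have : k = 0 ∨ k = 1 := by omega
              rcases this with rfl | rfl
              · rw [pow_zero]; exact hx.le
              · rw [pow_one]
            have z1 : ((cnt (fun f : P ≃ Fin (Fintype.card P) => f u < f v ∧ f c < f d) : ℕ) : ℝ) <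
                1 := by
              by_contra hc
              push Not at hc
              nlinarith
            have z2 : ((cnt (fun f : P ≃ Fin (Fintype.card P) => f u < f v ∧ f d < f c) : ℕ) : ℝ) <
                1 := by
              by_contra hc
              push Not at hc
              nlinarith
            have z1' : cnt (fun f : P ≃ Fin (Fintype.card P) => f u < f v ∧ f c < f d) < 1 := by
              exact_mod_cast z1
            have z2' : cnt (fun f : P ≃ Fin (Fintype.card P) => f u < f v ∧ f d < f c) < 1 := by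
              exact_mod_cast z2
            omega
          · exact ⟨k - 2, by omega⟩
        obtain ⟨j, rfl⟩ := hk2
        refine ⟨j + 1, rfl, Or.inr ⟨c, d, hcd, ?_, ?_⟩⟩
        · exact second_step P u v hvu c d j (by
            have e1 : x ^ (j + 2) = x ^ (j + 1) * x := by ring
            rw [e1] at k1
            exact lt_of_mul_lt_mul_right k1 hx0.le) (fun Q _ _ hQ => ih j (by omega) Q hQ)
        · exact second_step P u v hvu d c j (by
            have e1 : x ^ (j + 2) = x ^ (j + 1) * x := by ring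
            rw [e1] at k2
            exact lt_of_mul_lt_mul_right k2 hx0.le) (fun Q _ _ hQ => ih j (by omega) Q hQ)
    obtain ⟨j, hj, s1⟩ := main a b hba (Or.inl ⟨rfl, rfl⟩)
    obtain ⟨j', hj', s2⟩ := main b a hab (Or.inr ⟨rfl, rfl⟩)
    have e1 : j' = j := by omega
    subst e1
    subst hj
    exact Or.inr ⟨a, b, (fun h => hab (le_of_eq h)), s1, s2⟩
  · exact Sorts.of_sub (chain_sub P hP) k

end Run7.h640.GP2
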