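import Pool.Agent.Run7.h640.GP2.Key
import Pool.Agent.Y491.GP.Final

/-!
# Golden partitions: posets and orders on numbers
-/

set_option autoImplicit false

open Finset
open scoped Classical

namespace Run7.h640.GP2

open Run7.h640.FP Pool.Agent.H13R3.WB Pool.Agent.Y491 Pool.Agent.Y491.GP

theorem prob_pr (P : Type) [Fintype P] [PartialOrder P] (n : ℕ) (r : ℕ → ℕ → Prop) (e : P ≃ Fin n)
    (h : ∀ x y : P, r (e x : ℕ) (e y : ℕ) ↔ x < y) (x y : P) :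
    prob P x y = pr r (e x : ℕ) (e y : ℕ) (range n) := by
  obtain ⟨h1, h2⟩ := all.map P ℕ (fun a b : P => a < b) r (fun a => (e a : ℕ)) univ
      (fun a _ b _ hab => e.injective (Fin.ext hab)) (fun a _ b _ => h a b)
  rw [all.conn P x y]
  unfold pr
  have h3 := h2 x (mem_univ _) y (mem_univ _)
  rw [← h1, ← h3, Run7.h629.FP.range_image e]

theorem prob_plus (P : Type) [Fintype P] [PartialOrder P] (n : ℕ) (r : ℕ → ℕ → Prop) (e : P ≃ Fin n)
    (h : ∀ x y : P, r (e x : ℕ) (e y : ℕ) ↔ x < y) (a b : P) (hab : ¬ b ≤ a) (w z : P) :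
    @prob (Cp P) _ (addRel a b hab) w z =
      pr (add r (e a : ℕ) (e b : ℕ)) (e w : ℕ) (e z : ℕ) (range n) := by
  refine @prob_pr (Cp P) _ (addRel a b hab) n (add r (e a : ℕ) (e b : ℕ)) (show Cp P ≃ Fin n from e)
    ?_ w z
  intro x y
  have hle : ∀ x y : P, (((e x : ℕ) = (e y : ℕ)) ∨ r (e x : ℕ) (e y : ℕ)) ↔ x ≤ y := by
    intro x y
    rw [h, le_iff_eq_or_lt]
    constructor
    · rintro (h1 | h1)
      · exact Or.inl (e.injective (Fin.ext h1))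
      · exact Or.inr h1
    · rintro (h1 | h1)
      · exact Or.inl (by rw [h1])
      · exact Or.inr h1
  have h1 : (@LT.lt (Cp P) (addRel a b hab).toLT x y) ↔
      (((show P from x) ≤ (show P from y) ∨ ((show P from x) ≤ a ∧ b ≤ (show P from y))) ∧ x ≠ y) :=
    @lt_iff_le_and_ne (Cp P) (addRel a b hab) x y
  rw [h1]
  show (r (e x : ℕ) (e y : ℕ) ∨ (((e x : ℕ) = (e a : ℕ) ∨ r (e x : ℕ) (e a : ℕ)) ∧
    ((e y : ℕ) = (e b : ℕ) ∨ r (e b : ℕ) (e y : ℕ)))) ↔ _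
  have h2 : ((e y : ℕ) = (e b : ℕ) ∨ r (e b : ℕ) (e y : ℕ)) ↔ b ≤ y := by
    rw [← hle b y]
    constructor
    · rintro (h3 | h3)
      · exact Or.inl h3.symm
      · exact Or.inr h3
    · rintro (h3 | h3)
      · exact Or.inl h3.symm
      · exact Or.inr h3
  rw [hle x a, h2, h x y]
  constructor
  · rintro (h3 | ⟨h3, h4⟩)
    · exact ⟨Or.inl (@le_of_lt P _ _ _ h3), @ne_of_lt P _ _ _ h3⟩
    · refine ⟨Or.inr ⟨h3, h4⟩, fun heq => hab ?_⟩
      subst heq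
      exact @le_trans P _ _ _ _ h4 h3
  · rintro ⟨h3 | h3, h4⟩
    · exact Or.inl (@lt_of_le_of_ne P _ _ _ h3 h4)
    · exact Or.inr h3

section

variable {α : Type} [Fintype α] [PartialOrder α]

theorem cond1_iff (lam : ℝ) (a b : α) (hab : ¬ b ≤ a) (w z : α) :
    ((cnt (fun f : α ≃ Fin (Fintype.card α) => f a < f b) : ℕ) : ℝ) +
      ((cnt (fun f : α ≃ Fin (Fintype.card α) => f a < f b ∧ f w < f z) : ℕ) : ℝ) ≤
      lam * ((BF.LE α).card : ℝ) ↔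
    prob α a b * (1 + @prob (Cp α) _ (addRel a b hab) w z) ≤ lam := by
  have hN : (0 : ℝ) < (BF.LE α).card := BF.Npos
  rw [← prob_addRel a b hab w z, prob_cnt a b, div_mul_eq_mul_div, div_le_iff₀ hN]
  constructor <;> intro h <;> linarith

theorem cnt_split (a b : α) (hab : a ≠ b) (w z : α) :
    cnt (fun f : α ≃ Fin (Fintype.card α) => f a < f b ∧ f w < f z) +
      cnt (fun f : α ≃ Fin (Fintype.card α) => f b < f a ∧ f w < f z) =
      cnt (fun f : α ≃ Fin (Fintype.card α) => f w < f z) := by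
  rw [cnt_eq, cnt_eq, cnt_eq]
  rw [← Finset.card_union_of_disjoint]
  · congr 1
    ext f
    simp only [Finset.mem_union, Finset.mem_filter]
    constructor
    · rintro (⟨h1, h2, h3⟩ | ⟨h1, h2, h3⟩)
      · exact ⟨h1, h3⟩
      · exact ⟨h1, h3⟩
    · rintro ⟨h1, h3⟩
      rcases lt_trichotomy (f a) (f b) with h | h | h
      · exact Or.inl ⟨h1, h, h3⟩
      · exact absurd (f.injective h) hab
      · exact Or.inr ⟨h1, h, h3⟩
  · rw [Finset.disjoint_filter]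
    intro f _ h1 h2
    exact lt_asymm h1.1 h2.1

theorem cond2_iff (lam : ℝ) (a b : α) (hab : ¬ b ≤ a) (w z : α) :
    ((cnt (fun f : α ≃ Fin (Fintype.card α) => f b < f a) : ℕ) : ℝ) +
      ((cnt (fun f : α ≃ Fin (Fintype.card α) => f b < f a ∧ f w < f z) : ℕ) : ℝ) ≤
      lam * ((BF.LE α).card : ℝ) ↔
    1 - prob α a b + prob α w z - prob α a b * @prob (Cp α) _ (addRel a b hab) w z ≤ lam := by
  have hN : (0 : ℝ) < (BF.LE α).card := BF.Npos
  have hne : a ≠ b := fun h => hab (h ▸ le_rfl)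
  have h1 : ((cnt (fun f : α ≃ Fin (Fintype.card α) => f a < f b) : ℕ) : ℝ) +
      ((cnt (fun f : α ≃ Fin (Fintype.card α) => f b < f a) : ℕ) : ℝ) = ((BF.LE α).card : ℝ) := by
    exact_mod_cast cnt_total a b hne
  have h2 : ((cnt (fun f : α ≃ Fin (Fintype.card α) => f a < f b ∧ f w < f z) : ℕ) : ℝ) +
      ((cnt (fun f : α ≃ Fin (Fintype.card α) => f b < f a ∧ f w < f z) : ℕ) : ℝ) =
      ((cnt (fun f : α ≃ Fin (Fintype.card α) => f w < f z) : ℕ) : ℝ) := by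
    exact_mod_cast cnt_split a b hne w z
  have h3 := prob_addRel a b hab w z
  have h4 : 1 - prob α a b + prob α w z - prob α a b * @prob (Cp α) _ (addRel a b hab) w z =
      (((cnt (fun f : α ≃ Fin (Fintype.card α) => f b < f a) : ℕ) : ℝ) +
      ((cnt (fun f : α ≃ Fin (Fintype.card α) => f b < f a ∧ f w < f z) : ℕ) : ℝ)) /
        ((BF.LE α).card : ℝ) := by
    rw [eq_div_iff hN.ne', prob_cnt a b, prob_cnt w z]
    have h5 : ((cnt (fun f : α ≃ Fin (Fintype.card α) => f a < f b) : ℕ) : ℝ) /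
        ((BF.LE α).card : ℝ) * ((BF.LE α).card : ℝ) =
        ((cnt (fun f : α ≃ Fin (Fintype.card α) => f a < f b) : ℕ) : ℝ) := div_mul_cancel₀ _ hN.ne'
    have h6 : ((cnt (fun f : α ≃ Fin (Fintype.card α) => f w < f z) : ℕ) : ℝ) /
        ((BF.LE α).card : ℝ) * ((BF.LE α).card : ℝ) =
        ((cnt (fun f : α ≃ Fin (Fintype.card α) => f w < f z) : ℕ) : ℝ) := div_mul_cancel₀ _ hN.ne'
    calc (1 - ((cnt (fun f : α ≃ Fin (Fintype.card α) => f a < f b) : ℕ) : ℝ) /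
          ((BF.LE α).card : ℝ) + ((cnt (fun f : α ≃ Fin (Fintype.card α) => f w < f z) : ℕ) : ℝ) /
          ((BF.LE α).card : ℝ) - ((cnt (fun f : α ≃ Fin (Fintype.card α) => f a < f b) : ℕ) : ℝ) /
          ((BF.LE α).card : ℝ) * @prob (Cp α) _ (addRel a b hab) w z) * ((BF.LE α).card : ℝ)
        = ((BF.LE α).card : ℝ) - ((cnt (fun f : α ≃ Fin (Fintype.card α) => f a < f b) : ℕ) : ℝ) /
          ((BF.LE α).card : ℝ) * ((BF.LE α).card : ℝ) +
          ((cnt (fun f : α ≃ Fin (Fintype.card α) => f w < f z) : ℕ) : ℝ) /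
          ((BF.LE α).card : ℝ) * ((BF.LE α).card : ℝ) -
          @prob (Cp α) _ (addRel a b hab) w z *
          (((cnt (fun f : α ≃ Fin (Fintype.card α) => f a < f b) : ℕ) : ℝ) /
          ((BF.LE α).card : ℝ) * ((BF.LE α).card : ℝ)) := by ring
      _ = _ := by
          rw [h5, h6, h3]
          linarith
  rw [h4, div_le_iff₀ hN]

/-- a golden partition with the constant `lam` -/
def GPv (lam : ℝ) (α : Type) [Fintype α] [PartialOrder α] : Prop :=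
  ∃ a b : α, ¬ a ≤ b ∧ ¬ b ≤ a ∧
    ∀ u v : α, ((u = a ∧ v = b) ∨ (u = b ∧ v = a)) →
      ∃ c d : α, c ≠ d ∧
        ∀ w z : α, ((w = c ∧ z = d) ∨ (w = d ∧ z = c)) →
          ((cnt (fun f : α ≃ Fin (Fintype.card α) => f u < f v) : ℕ) : ℝ) +
            ((cnt (fun f : α ≃ Fin (Fintype.card α) => f u < f v ∧ f w < f z) : ℕ) : ℝ) ≤
            lam * ((BF.LE α).card : ℝ)

theorem W1_iff (lam : ℝ) {n : ℕ} {r : ℕ → ℕ → Prop} (e : α ≃ Fin n)
    (h : ∀ x y : α, r (e x : ℕ) (e y : ℕ) ↔ x < y) (a b : α) (hab : ¬ b ≤ a) (w z : α) :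
    W1 lam r n (e a : ℕ) (e b : ℕ) (e w : ℕ) (e z : ℕ) ↔
    ((cnt (fun f : α ≃ Fin (Fintype.card α) => f a < f b) : ℕ) : ℝ) +
      ((cnt (fun f : α ≃ Fin (Fintype.card α) => f a < f b ∧ f w < f z) : ℕ) : ℝ) ≤
      lam * ((BF.LE α).card : ℝ) := by
  rw [cond1_iff lam a b hab w z, prob_pr α n r e h a b, prob_plus α n r e h a b hab w z]
  rfl

theorem W2_iff (lam : ℝ) {n : ℕ} {r : ℕ → ℕ → Prop} (e : α ≃ Fin n)
    (h : ∀ x y : α, r (e x : ℕ) (e y : ℕ) ↔ x < y) (a b : α) (hab : ¬ b ≤ a) (w z : α) :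
    W2 lam r n (e a : ℕ) (e b : ℕ) (e w : ℕ) (e z : ℕ) ↔
    ((cnt (fun f : α ≃ Fin (Fintype.card α) => f b < f a) : ℕ) : ℝ) +
      ((cnt (fun f : α ≃ Fin (Fintype.card α) => f b < f a ∧ f w < f z) : ℕ) : ℝ) ≤
      lam * ((BF.LE α).card : ℝ) := by
  rw [cond2_iff lam a b hab w z, prob_pr α n r e h a b, prob_pr α n r e h w z,
    prob_plus α n r e h a b hab w z]
  rfl

theorem GN_of_GPv (lam : ℝ) {n : ℕ} {r : ℕ → ℕ → Prop} (e : α ≃ Fin n)
    (h : ∀ x y : α, r (e x : ℕ) (e y : ℕ) ↔ x < y) (hG : GPv lam α) : GN lam r n := by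
  obtain ⟨a, b, hab, hba, hG⟩ := hG
  -- the pair with the smaller number first
  have key : ∀ a b : α, ¬ a ≤ b → ¬ b ≤ a → (e a : ℕ) < (e b : ℕ) →
      (∀ u v : α, ((u = a ∧ v = b) ∨ (u = b ∧ v = a)) →
      ∃ c d : α, c ≠ d ∧
        ∀ w z : α, ((w = c ∧ z = d) ∨ (w = d ∧ z = c)) →
          ((cnt (fun f : α ≃ Fin (Fintype.card α) => f u < f v) : ℕ) : ℝ) +
            ((cnt (fun f : α ≃ Fin (Fintype.card α) => f u < f v ∧ f w < f z) : ℕ) : ℝ) ≤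
            lam * ((BF.LE α).card : ℝ)) → GN lam r n := by
    intro a b hab hba hlt hG
    refine ⟨e a, e b, hlt, (e b).2, fun hc => hab ((h a b).1 hc).le, ?_, ?_⟩
    · obtain ⟨c, d, hcd, hcd'⟩ := hG a b (Or.inl ⟨rfl, rfl⟩)
      have h1 := (W1_iff lam e h a b hba c d).2 (hcd' c d (Or.inl ⟨rfl, rfl⟩))
      have h2 := (W1_iff lam e h a b hba d c).2 (hcd' d c (Or.inr ⟨rfl, rfl⟩))
      rcases lt_trichotomy (e c : ℕ) (e d : ℕ) with hl | hl | hl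
      · exact ⟨e c, e d, hl, (e d).2, h1, h2⟩
      · exact absurd (e.injective (Fin.ext hl)) hcd
      · exact ⟨e d, e c, hl, (e c).2, h2, h1⟩
    · obtain ⟨c, d, hcd, hcd'⟩ := hG b a (Or.inr ⟨rfl, rfl⟩)
      have h1 := (W2_iff lam e h a b hba c d).2 (hcd' c d (Or.inl ⟨rfl, rfl⟩))
      have h2 := (W2_iff lam e h a b hba d c).2 (hcd' d c (Or.inr ⟨rfl, rfl⟩))
      rcases lt_trichotomy (e c : ℕ) (e d : ℕ) with hl | hl | hl
      · exact ⟨e c, e d, hl, (e d).2, h1, h2⟩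
      · exact absurd (e.injective (Fin.ext hl)) hcd
      · exact ⟨e d, e c, hl, (e c).2, h2, h1⟩
  rcases lt_trichotomy (e a : ℕ) (e b : ℕ) with hl | hl | hl
  · exact key a b hab hba hl hG
  · exact absurd (e.injective (Fin.ext hl)) (fun hc => hab (by rw [hc]))
  · exact key b a hba hab hl (fun u v huv => hG u v huv.symm)

theorem GPv_of_GN (lam : ℝ) {D n : ℕ} {r : ℕ → ℕ → Prop} (hr : Band D r) (e : α ≃ Fin n)
    (h : ∀ x y : α, r (e x : ℕ) (e y : ℕ) ↔ x < y) (hG : GN lam r n) : GPv lam α := by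
  obtain ⟨a', b', hab, hbn, hrab, ⟨c1, d1, hcd1, hdn1, hw1, hw1'⟩, ⟨c2, d2, hcd2, hdn2, hw2, hw2'⟩⟩ :=
    hG
  have hs : ∀ k : ℕ, k < n → ∃ x : α, (e x : ℕ) = k := fun k hk => ⟨e.symm ⟨k, hk⟩, by simp⟩
  obtain ⟨a, rfl⟩ := hs a' (by omega)
  obtain ⟨b, rfl⟩ := hs b' (by omega)
  obtain ⟨c, rfl⟩ := hs c1 (by omega)
  obtain ⟨d, rfl⟩ := hs d1 (by omega)
  obtain ⟨c', rfl⟩ := hs c2 (by omega)
  obtain ⟨d', rfl⟩ := hs d2 (by omega)
  have hne : a ≠ b := fun hc => by rw [hc] at hab; exact lt_irrefl _ hab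
  have h1 : ¬ a ≤ b := fun hc => hrab ((h a b).2 (lt_of_le_of_ne hc hne))
  have h2 : ¬ b ≤ a := by
    intro hc
    have := hr.lt _ _ ((h b a).2 (lt_of_le_of_ne hc hne.symm))
    omega
  refine ⟨a, b, h1, h2, ?_⟩
  rintro u v (⟨rfl, rfl⟩ | ⟨rfl, rfl⟩)
  · refine ⟨c, d, fun hc => by rw [hc] at hcd1; exact lt_irrefl _ hcd1, ?_⟩
    rintro w z (⟨rfl, rfl⟩ | ⟨rfl, rfl⟩)
    · exact (W1_iff lam e h _ _ h2 _ _).1 hw1
    · exact (W1_iff lam e h _ _ h2 _ _).1 hw1'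
  · refine ⟨c', d', fun hc => by rw [hc] at hcd2; exact lt_irrefl _ hcd2, ?_⟩
    rintro w z (⟨rfl, rfl⟩ | ⟨rfl, rfl⟩)
    · exact (W2_iff lam e h _ _ h2 _ _).1 hw2
    · exact (W2_iff lam e h _ _ h2 _ _).1 hw2'

end

end Run7.h640.GP2
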